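import Pool.Agent.Helper95.HV.Stmts
import Pool.Agent.Helper53.PN.MTH

/-! # HV: the row PIZ -/

set_option autoImplicit false

namespace Pool.Agent.Helper59.HV

open MeasureTheory Filter Pool.Agent.Helper95 Pool.Agent.Helper95.PW Pool.Agent.Helper95.LN
open Pool.Agent.Helper95.HV

theorem piz_nucR {M : ℕ} (X : Fin M → R3) (Z : Fin M → ℝ) (hZ : ∀ j, 0 ≤ Z j) :
    0 ≤ nucR X Z := by
  unfold nucR
  refine Finset.sum_nonneg fun i _ => Finset.sum_nonneg fun j _ => ?_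
  split_ifs
  · exact div_nonneg (mul_nonneg (hZ i) (hZ j)) (com_nr_nonneg _)
  · exact le_rfl

/-- the energy bound of the approximating functions -/
theorem piz_en (h10 : ST_QHM) (h11 : ST_INTM) {n M : ℕ} (X : Fin M → R3) (Z : Fin M → ℝ)
    (E : ℝ) (hEn : E + nucR X Z ≤ 0) (u : Wf n) (hu : Sm u)
    (hsq : PW.sq u ≤ 2) (hres : resM X Z E u ≤ 1 / 2) :
    QM X Z u + nucR X Z * PW.sq u ≤ 1 := by
  have h1 := innm_Q_le h10 h11 X Z E u hu
  have h0 := com_sq_nonneg u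
  have h2 : (E + nucR X Z) * PW.sq u ≤ 0 := mul_nonpos_of_nonpos_of_nonneg hEn h0
  have h4 : (E + nucR X Z) * PW.sq u = E * PW.sq u + nucR X Z * PW.sq u := by ring
  linarith

/-- number of electrons near the nuclei -/
theorem piz_num {C3 C4 M W r ν k : ℝ} (h3 : 0 < C3) (h4 : 0 < C4) (hM : 1 ≤ M) (hW : 0 < W)
    (hr : 0 < r) (hν : ν = 1 + (W * r ^ 2) ^ (3 / 5 : ℝ)) (hk : 0 ≤ k) (hkM : k ≤ C4 * (M * W)) :
    C3 * (M + M ^ (2 / 5 : ℝ) * (k * (2 * r) ^ 2) ^ (3 / 5 : ℝ)) ≤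
      C3 * (1 + (4 * C4) ^ (3 / 5 : ℝ)) * (M * ν) := by
  have hM0 : 0 < M := by linarith
  have e1 : (k * (2 * r) ^ 2) ^ (3 / 5 : ℝ) ≤
      (4 * C4) ^ (3 / 5 : ℝ) * (M ^ (3 / 5 : ℝ) * (W * r ^ 2) ^ (3 / 5 : ℝ)) := by
    rw [← Real.mul_rpow hM0.le (by positivity), ← Real.mul_rpow (by positivity) (by positivity)]
    refine Real.rpow_le_rpow (by positivity) ?_ (by norm_num)
    have h := mul_le_mul_of_nonneg_right hkM (sq_nonneg (2 * r))
    calc k * (2 * r) ^ 2 ≤ C4 * (M * W) * (2 * r) ^ 2 := h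
      _ = 4 * C4 * (M * (W * r ^ 2)) := by ring
  have e2 : M ^ (2 / 5 : ℝ) * M ^ (3 / 5 : ℝ) = M := by
    rw [← Real.rpow_add hM0]
    norm_num
  have hP : 0 ≤ (W * r ^ 2) ^ (3 / 5 : ℝ) := by positivity
  have hQ : 0 ≤ (4 * C4) ^ (3 / 5 : ℝ) := by positivity
  calc C3 * (M + M ^ (2 / 5 : ℝ) * (k * (2 * r) ^ 2) ^ (3 / 5 : ℝ))
      ≤ C3 * (M + M ^ (2 / 5 : ℝ) *
          ((4 * C4) ^ (3 / 5 : ℝ) * (M ^ (3 / 5 : ℝ) * (W * r ^ 2) ^ (3 / 5 : ℝ)))) := by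
        gcongr
    _ = C3 * (M + (4 * C4) ^ (3 / 5 : ℝ) * ((M ^ (2 / 5 : ℝ) * M ^ (3 / 5 : ℝ)) *
          (W * r ^ 2) ^ (3 / 5 : ℝ))) := by ring
    _ = C3 * M * (1 + (4 * C4) ^ (3 / 5 : ℝ) * (W * r ^ 2) ^ (3 / 5 : ℝ)) := by
        rw [e2]
        ring
    _ ≤ C3 * M * ((1 + (4 * C4) ^ (3 / 5 : ℝ)) * (1 + (W * r ^ 2) ^ (3 / 5 : ℝ))) := by
        refine mul_le_mul_of_nonneg_left ?_ (by positivity)
        nlinarith [mul_nonneg hP hQ]
    _ = _ := by rw [hν]; ring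

theorem PIZ (h1 : ST_MIZ) (h2 : ST_MLZ) (h3 : ST_NRL) (h4 : ST_TUPZ) (h5 : ST_FLD)
    (h6 : ST_APXM) (h7 : ST_LMTM) (h8 : ST_QHM) (h9 : ST_INTM) (h10 : ST_POTB) : ST_PIZ := by
  intro d hd hd1
  obtain ⟨C1, hC1, H1⟩ := h1 d hd hd1
  obtain ⟨C2, hC2, H2⟩ := h2 d hd hd1
  obtain ⟨C3, hC3, H3⟩ := h3
  obtain ⟨C4, hC4, H4⟩ := h4 d hd hd1
  obtain ⟨K, hK, H5⟩ := h5
  have hK0 : 0 < K := by linarith
  obtain ⟨C5, hC5⟩ : ∃ C5 : ℝ, C5 = C3 * (1 + (4 * C4) ^ (3 / 5 : ℝ)) := ⟨_, rfl⟩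
  have hC5p : 0 < C5 := by rw [hC5]; positivity
  obtain ⟨D1, hD1⟩ : ∃ D1 : ℝ, D1 = 1 + C1 + C1 * C4 := ⟨_, rfl⟩
  have hD1p : 0 < D1 := by rw [hD1]; positivity
  obtain ⟨C7, hC7⟩ : ∃ C7 : ℝ, C7 = C2 * (C4 + 2 + C2 + C2 * C4) := ⟨_, rfl⟩
  have hC7p : 0 < C7 := by rw [hC7]; positivity
  refine ⟨C1 * K ^ 4 * C5 * (C4 + D1 + C5 + C7), by positivity, ?_⟩
  intro z E r ν n M X Z φ G m hDat hM hEn hG hr hrd hν
  have hZ0 := hDat.nuc.1
  have hz1 := hDat.z1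
  have hz0 : 0 < z := by linarith
  have hM1 : (1:ℝ) ≤ M := by exact_mod_cast hM
  have hM0 : (0:ℝ) < M := by linarith
  have hnR := piz_nucR X Z hZ0
  have hnM : (n : ℝ) ≤ z * M := by
    rw [← hDat.nuc.2]
    calc ∑ j, Z j ≤ ∑ _j : Fin M, z := Finset.sum_le_sum fun j _ => hDat.le j
      _ = z * M := by rw [Finset.sum_const, Finset.card_univ, Fintype.card_fin, nsmul_eq_mul, mul_comm]
  obtain ⟨W, hW⟩ : ∃ W : ℝ, W = z ^ (7 / 3 : ℝ) := ⟨_, rfl⟩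
  have hWp : 0 < W := by rw [hW]; positivity
  have hW1 : 1 ≤ W := by rw [hW]; exact Real.one_le_rpow hz1 (by norm_num)
  have hW2 : z ^ 2 ≤ W := by
    rw [hW, ← Real.rpow_natCast z 2]
    exact Real.rpow_le_rpow_of_exponent_le hz1 (by norm_num)
  have hMW : 1 ≤ M * W := one_le_mul_of_one_le_of_one_le hM1 hW1
  have a1 : z ^ 2 * M ≤ M * W := by
    rw [mul_comm]
    exact mul_le_mul_of_nonneg_left hW2 hM0.le
  have hzz : z ≤ z ^ 2 := by
    rw [pow_two]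
    exact le_mul_of_one_le_right hz0.le hz1
  obtain ⟨Y, hY⟩ : ∃ Y : ℝ, Y = z ^ (13 / 3 : ℝ) := ⟨_, rfl⟩
  have hYp : 0 < Y := by rw [hY]; positivity
  have hWY : z ^ 2 * W = Y := by
    rw [hW, hY, ← Real.rpow_natCast z 2, ← Real.rpow_add hz0]
    norm_num
  rw [← hW] at hν
  rw [← hW, ← hY]
  have hνp : 0 < ν := by rw [hν]; positivity
  obtain ⟨u, hu⟩ := h6 n M X Z E φ G hG
  obtain ⟨l1, l2, l3⟩ := h7 n M X Z E φ G u hG hu
  obtain ⟨hsm, _, _, ⟨M0, hM0'⟩, hres⟩ := hu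
  obtain ⟨Cp, hCp, HP⟩ := h10 z d hz0.le hd
  obtain ⟨N1, hN1⟩ : ∃ N1 : ℝ, N1 = n * (M : ℝ) ^ (2 / 3 : ℝ) := ⟨_, rfl⟩
  have hN1p : 0 ≤ N1 := by rw [hN1]; positivity
  obtain ⟨C2', hC2', H2'⟩ := H2 z E (C4 * (M * W)) n M X Z hDat hM
  have hflds := fun m' : Fin 3 => H5 M X d r r m' hd hDat.sep hr le_rfl hrd
  obtain ⟨C', hC', HI⟩ := H1 z K r (1 + C4 * (M * W) + Cp * (C4 * (M * W) + N1) + |M0|) E n M X Z
    (fun m' => gN X m' r) (Nb X (2 * r)) hDat hG.low hK hr (by linarith)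
    (fun m' => (hflds m').1) (fun m' => (hflds m').2.2.1)
    (fun m' y hy => (hflds m').2.2.2.1 y (fun j => by
      have := hy j
      linarith))
    (innm_nb_closed X (2 * r))
    (fun m' y hy => (hflds m').2.2.2.1 y (fun j => by
      by_contra hc
      exact hy ⟨j, not_lt.1 hc⟩))
  obtain ⟨V, hV⟩ : ∃ V : ℝ, V = C7 * (M * Y) := ⟨_, rfl⟩
  have hVp : 0 ≤ V := by rw [hV]; positivity
  have hev : ∀ᶠ j in atTop, PW.sq (fun s => Pg (gN X m r) (u j s)) ^ 2 ≤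
      C1 * K ^ 4 * (C5 * (M * ν) * ((C4 * (M * W) + D1 * (M * W)) / r ^ 2 +
        C5 * (M * ν) / r ^ 4 + (V + C2' * Real.sqrt (resM X Z E (u j))))) +
        C' * Real.sqrt (resM X Z E (u j)) := by
    have e1 : ∀ᶠ j in atTop, PW.sq (u j) ≤ 2 :=
      l1.eventually_le_const (by norm_num : (1:ℝ) < 2)
    have e2 : ∀ᶠ j in atTop, resM X Z E (u j) ≤ 1 / 2 :=
      hres.eventually_le_const (by norm_num : (0:ℝ) < 1 / 2)
    filter_upwards [e1, e2] with j hj1 hj2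
    have hQ := piz_en h8 h9 X Z E hEn (u j) (hsm j).1 hj1 hj2
    have hsq0 := com_sq_nonneg (u j)
    have hnsq : 0 ≤ nucR X Z * PW.sq (u j) := mul_nonneg hnR hsq0
    obtain ⟨q4, q5⟩ := H4 z E n M X Z (u j) hDat hM hEn (hsm j).1 (hsm j).2 hj1 hj2
    rw [← hW] at q4 q5
    have p1 := com_kin_nonneg (u j)
    have p2 := com_pair_nonneg (u j)
    have p3 : 0 ≤ one (pot X Z) (u j) := com_one_nonneg _ (innm_pot_nonneg X Z hZ0) _
    have p4 : 0 ≤ one (ind (Nb X (2 * r))) (u j) := com_one_nonneg _ (innm_ind_nonneg _) _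
    have q1 := HP n M X Z (u j) hM hDat.sep hZ0 hDat.le (hsm j).1 hj1
    rw [← hN1] at q1
    have q1' : one (pot X Z) (u j) ≤ Cp * (C4 * (M * W) + N1) :=
      q1.trans (mul_le_mul_of_nonneg_left (by linarith) hCp.le)
    have q2 : pair (u j) ≤ 1 + Cp * (C4 * (M * W) + N1) := by
      unfold QM at hQ
      linarith
    have hs0 := Real.sqrt_nonneg (resM X Z E (u j))
    -- the local energy
    have hYY : ∀ C : ℝ, 0 ≤ C → YY C d z X Z (u j) ≤ 1 + C * (z ^ 2 * M + C4 * (M * W)) := by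
      intro C hC
      unfold YY
      have := mul_le_mul_of_nonneg_left (add_le_add_right q5 (z ^ 2 * M)) hC
      linarith
    have hYY1 : YY C1 d z X Z (u j) ≤ D1 * (M * W) := by
      refine (hYY C1 hC1.le).trans ?_
      rw [hD1]
      have a2 : C1 * (z ^ 2 * M + C4 * (M * W)) ≤ C1 * (M * W + C4 * (M * W)) :=
        mul_le_mul_of_nonneg_left (by linarith) hC1.le
      linarith
    obtain ⟨B1, hB1⟩ : ∃ B1 : ℝ, B1 = V + C2' * Real.sqrt (resM X Z E (u j)) := ⟨_, rfl⟩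
    have hB1n : 0 ≤ B1 := by rw [hB1]; positivity
    have hYz1 : z * (z * (C4 * (M * W))) = C4 * (M * Y) := by rw [← hWY]; ring
    have hYz2 : z * (z * (z * M)) ≤ M * Y := by
      rw [← hWY]
      have b1 : z ≤ W := hzz.trans hW2
      have b2 : z ^ 2 * z ≤ z ^ 2 * W := mul_le_mul_of_nonneg_left b1 (by positivity)
      calc z * (z * (z * M)) = M * (z ^ 2 * z) := by ring
        _ ≤ M * (z ^ 2 * W) := mul_le_mul_of_nonneg_left b2 hM0.le
    have hz2Y : z ^ 2 ≤ Y := by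
      rw [← hWY]
      exact le_mul_of_one_le_right (by positivity) hW1
    have hYz3 : z * 1 ≤ M * Y := by
      have b1 : z ≤ Y := hzz.trans hz2Y
      calc z * 1 = 1 * z := by ring
        _ ≤ M * Y := mul_le_mul hM1 b1 hz0.le hM0.le
    have hYz4 : z * (z ^ 2 * M) ≤ M * Y := by
      refine le_trans (le_of_eq ?_) hYz2
      ring
    have hYz5 : z * (C4 * (M * W)) ≤ C4 * (M * Y) := by
      rw [← hWY]
      have b1 : z * W ≤ z ^ 2 * W := mul_le_mul_of_nonneg_right hzz hWp.le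
      calc z * (C4 * (M * W)) = C4 * M * (z * W) := by ring
        _ ≤ C4 * M * (z ^ 2 * W) := mul_le_mul_of_nonneg_left b1 (by positivity)
        _ = _ := by ring
    have q3 : ∀ s : ℝ, 0 < s → s ≤ d →
        ∑ j', Z j' * one (fun y => mor s (y - X j')) (u j) ≤ B1 := by
      intro s hs hsd
      refine (H2' (u j) (hsm j).1 hj1 q4 s hs hsd).trans ?_
      rw [hB1]
      refine add_le_add ?_ le_rfl
      rw [hV, hC7]
      have w1 : z * kin (u j) + z * n + YY C2 d z X Z (u j) ≤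
          z * (C4 * (M * W)) + z * (z * M) + (1 + C2 * (z ^ 2 * M + C4 * (M * W))) :=
        add_le_add (add_le_add (mul_le_mul_of_nonneg_left q4 hz0.le)
          (mul_le_mul_of_nonneg_left hnM hz0.le)) (hYY C2 hC2.le)
      calc C2 * z * (z * kin (u j) + z * n + YY C2 d z X Z (u j))
          ≤ C2 * z * (z * (C4 * (M * W)) + z * (z * M) +
              (1 + C2 * (z ^ 2 * M + C4 * (M * W)))) :=
            mul_le_mul_of_nonneg_left w1 (by positivity)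
        _ = C2 * (z * (z * (C4 * (M * W))) + z * (z * (z * M)) + z * 1 +
              C2 * (z * (z ^ 2 * M)) + C2 * (z * (C4 * (M * W)))) := by ring
        _ ≤ C2 * (C4 * (M * Y) + M * Y + M * Y + C2 * (M * Y) + C2 * (C4 * (M * Y))) := by
            rw [hYz1]
            gcongr
        _ = C2 * (C4 + 2 + C2 + C2 * C4) * (M * Y) := by ring
    have hN : one (ind (Nb X (2 * r))) (u j) ≤ C5 * (M * ν) := by
      refine (innm_ind_le X (2 * r) (u j) (hsm j).1).trans ?_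
      refine (H3 n M X d (2 * r) (u j) hd hDat.sep (by positivity) (by linarith) (hsm j).1
        (hsm j).2 hj1).trans ?_
      rw [hC5]
      exact piz_num hC3 hC4 hM1 hWp hr hν p1 q4
    have hM2 := le_abs_self M0
    have hM3 := abs_nonneg M0
    have hM4 := hM0' j
    have hCW : 0 ≤ C4 * (M * W) := by positivity
    have hCN : 0 ≤ Cp * (C4 * (M * W) + N1) := by positivity
    have hb := HI (u j) (hsm j).1 (hsm j).2 hj1 (by linarith) (by linarith) (by linarith)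
      (by linarith) (by linarith) B1 d hB1n hd q3 m
    refine hb.trans (add_le_add ?_ le_rfl)
    refine mul_le_mul_of_nonneg_left ?_ (by positivity)
    rw [← hB1]
    have b1 : (kin (u j) + YY C1 d z X Z (u j)) / r ^ 2 ≤
        (C4 * (M * W) + D1 * (M * W)) / r ^ 2 :=
      div_le_div_of_nonneg_right (add_le_add q4 hYY1) (by positivity)
    have b2 : one (ind (Nb X (2 * r))) (u j) / r ^ 4 ≤ C5 * (M * ν) / r ^ 4 :=
      div_le_div_of_nonneg_right hN (by positivity)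
    have hR0 : 0 ≤ (C4 * (M * W) + D1 * (M * W)) / r ^ 2 + C5 * (M * ν) / r ^ 4 + B1 := by
      positivity
    calc one (ind (Nb X (2 * r))) (u j) * ((kin (u j) + YY C1 d z X Z (u j)) / r ^ 2 +
          one (ind (Nb X (2 * r))) (u j) / r ^ 4 + B1)
        ≤ one (ind (Nb X (2 * r))) (u j) * ((C4 * (M * W) + D1 * (M * W)) / r ^ 2 +
          C5 * (M * ν) / r ^ 4 + B1) := mul_le_mul_of_nonneg_left (by linarith) p4
      _ ≤ C5 * (M * ν) * ((C4 * (M * W) + D1 * (M * W)) / r ^ 2 +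
          C5 * (M * ν) / r ^ 4 + B1) := mul_le_mul_of_nonneg_right hN hR0
  have lim1 : Tendsto (fun j => PW.sq (fun s => Pg (gN X m r) (u j s)) ^ 2) atTop
      (nhds (PW.sq (PG (gN X m r) φ G) ^ 2)) :=
    (l3 _ (hflds m).1.sm (hflds m).1.cs).pow 2
  have lr : Tendsto (fun j => Real.sqrt (resM X Z E (u j))) atTop (nhds 0) := by
    have := hres.sqrt
    rwa [Real.sqrt_zero] at this
  have lim2 : Tendsto (fun j => C1 * K ^ 4 * (C5 * (M * ν) *
      ((C4 * (M * W) + D1 * (M * W)) / r ^ 2 + C5 * (M * ν) / r ^ 4 +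
        (V + C2' * Real.sqrt (resM X Z E (u j))))) + C' * Real.sqrt (resM X Z E (u j))) atTop
      (nhds (C1 * K ^ 4 * (C5 * (M * ν) * ((C4 * (M * W) + D1 * (M * W)) / r ^ 2 +
        C5 * (M * ν) / r ^ 4 + (V + C2' * 0))) + C' * 0)) := by
    have t4 := (((lr.const_mul C2').const_add V).const_add
      ((C4 * (M * W) + D1 * (M * W)) / r ^ 2 + C5 * (M * ν) / r ^ 4))
    exact ((t4.const_mul (C5 * (M * ν))).const_mul (C1 * K ^ 4)).add (lr.const_mul C')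
  have hfin := le_of_tendsto_of_tendsto lim1 lim2 hev
  refine hfin.trans ?_
  rw [mul_zero, mul_zero, add_zero, add_zero, hV]
  have c1 : 0 ≤ W / r ^ 2 := by positivity
  have c2 : 0 ≤ ν / r ^ 4 := by positivity
  have e : C5 * (M * ν) * ((C4 * (M * W) + D1 * (M * W)) / r ^ 2 + C5 * (M * ν) / r ^ 4 +
      C7 * (M * Y)) = C5 * ((M : ℝ) ^ 2 * (ν * ((C4 + D1) * (W / r ^ 2) + C5 * (ν / r ^ 4) +
        C7 * Y))) := by ring
  rw [e]
  have f : (C4 + D1) * (W / r ^ 2) + C5 * (ν / r ^ 4) + C7 * Y ≤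
      (C4 + D1 + C5 + C7) * (W / r ^ 2 + ν / r ^ 4 + Y) := by
    nlinarith [mul_nonneg hC4.le c2, mul_nonneg hC4.le hYp.le, mul_nonneg hD1p.le c2,
      mul_nonneg hD1p.le hYp.le, mul_nonneg hC5p.le c1, mul_nonneg hC5p.le hYp.le,
      mul_nonneg hC7p.le c1, mul_nonneg hC7p.le c2]
  calc C1 * K ^ 4 * (C5 * ((M : ℝ) ^ 2 * (ν * ((C4 + D1) * (W / r ^ 2) + C5 * (ν / r ^ 4) +
        C7 * Y))))
      ≤ C1 * K ^ 4 * (C5 * ((M : ℝ) ^ 2 * (ν * ((C4 + D1 + C5 + C7) *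
        (W / r ^ 2 + ν / r ^ 4 + Y))))) := by gcongr
    _ = _ := by ring

end Pool.Agent.Helper59.HV
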